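/-
MP_ad5d82_an (helper24): the radial wall and the one-dimensional forms. Definitions only.
-/
import Mathlib

set_option autoImplicit false

namespace Pool.MP_ad5d82_an.Wl

open Real Set MeasureTheory
open scoped ContDiff

/-- A radial wall `s(r) = F (r^2)`: `s'' + s'/r = e^s (e^s - 1)`, `s(0) = -ε`, `s(ρ) = -log 2`. -/
structure Wall (ρ ε : ℝ) (F : ℝ → ℝ) : Prop where
  hε : 0 < ε
  hε' : ε ≤ 1 / 100
  hρ : 100 ≤ ρ
  smooth : ContDiff ℝ ∞ F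
  F0 : F 0 = -ε
  ode : ∀ t, 0 ≤ t → 4 * t * deriv (deriv F) t + 4 * deriv F t = exp (F t) * (exp (F t) - 1)
  Fρ : F (ρ ^ 2) = -Real.log 2

/-- `y = e^s` as a function of the radius. -/
noncomputable def yy (F : ℝ → ℝ) (r : ℝ) : ℝ := exp (F (r ^ 2))

/-- `q = 1 - e^s`. -/
noncomputable def qq (F : ℝ → ℝ) (r : ℝ) : ℝ := 1 - exp (F (r ^ 2))

/-- `u = - s'(r)`. -/
noncomputable def uu (F : ℝ → ℝ) (r : ℝ) : ℝ := -(2 * r * deriv F (r ^ 2))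

/-- `X = r (q² - s'²)`. -/
noncomputable def XX (F : ℝ → ℝ) (r : ℝ) : ℝ := r * (qq F r ^ 2 - uu F r ^ 2)

/-- The potential `V_μ = μ y ((μ+1) y - 1)`. -/
noncomputable def VV (μ : ℕ) (F : ℝ → ℝ) (r : ℝ) : ℝ :=
  μ * yy F r * ((μ + 1) * yy F r - 1)

/-- minus the ground state potential: `μ y (1 - μ y) q^{2μ-2} X`. -/
noncomputable def NP (μ : ℕ) (F : ℝ → ℝ) (r : ℝ) : ℝ :=
  μ * yy F r * (1 - μ * yy F r) * qq F r ^ (2 * μ - 2) * XX F r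

/-- the critical angular number `k_μ = μ H_{2μ-1} / (2μ-1)`. -/
noncomputable def kmu (μ : ℕ) : ℝ := μ * ((harmonic (2 * μ - 1) : ℚ) : ℝ) / (2 * μ - 1 : ℕ)

/-- the far weight `min(1, (ρ/r)^4)`. -/
noncomputable def wgt (ρ r : ℝ) : ℝ := min 1 ((ρ / r) ^ 4)

/-- bump: `= 1` for `|t| ≤ 1/2`, `= 0` for `|t| ≥ 3/4`. -/
noncomputable def om (t : ℝ) : ℝ := Real.smoothTransition (2 - 4 * t ^ 2)

end Pool.MP_ad5d82_an.Wl
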