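/-
MP_ad5d82_an (helper24): spectral data, angular modes, fields on the plane. Definitions only.
-/
import Pool.Agent.Lib.MP_ad5d82_an.h24.WDefs

set_option autoImplicit false

namespace Pool.MP_ad5d82_an.Wl

open Real Set MeasureTheory
open scoped ContDiff

/-- Spectral data: eigenvalues `μ j` of `A` (in the orthonormal eigenbasis `e_j`, with `a`-th component
`T a j`), the constant eigenvector is `e_o`. -/
structure Sys (ι : Type) [Fintype ι] [DecidableEq ι] where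
  o : ι
  μ : ι → ℕ
  μ_o : μ o = 1
  one_lt : ∀ j, j ≠ o → 1 < μ j
  nonres : ∀ j, j ≠ o → ∀ k : ℕ, kmu (μ j) ≠ k
  m : ι → ℝ
  m_pos : ∀ a, 0 < m a
  T : ι → ι → ℝ
  orth : ∀ j k, ∑ a, m a * T a j * T a k = if j = k then 1 else 0
  T_o : ∀ a, T a o * Real.sqrt (∑ b, m b) = 1

/-- Values of our maps (coordinates with respect to the eigenbasis). -/
abbrev Ev (ι : Type) [Fintype ι] := EuclideanSpace ℝ ι

/-- A field: value and the two partial derivatives. -/
abbrev Fld (ι : Type) [Fintype ι] := ℂ → Ev ι × Ev ι × Ev ι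

variable {ι : Type} [Fintype ι] [DecidableEq ι]

/-- The field of a function. -/
noncomputable def jet (H : ℂ → Ev ι) : Fld ι := fun z =>
  (H z, fderiv ℝ H z 1, fderiv ℝ H z Complex.I)

/-- `⟨P∇H,∇H⟩ = ∑ μ_j⁻¹ |∇H_j|²`. -/
noncomputable def gP (S : Sys ι) (u : Ev ι × Ev ι × Ev ι) : ℝ :=
  ∑ j, (S.μ j : ℝ)⁻¹ * (u.2.1 j ^ 2 + u.2.2 j ^ 2)

/-- eigenvalues of the potential matrix `e^{2s} A + e^{2s} - e^s`. -/
noncomputable def vj (S : Sys ι) (s : ℝ) (j : ι) : ℝ := exp (2 * s) * (S.μ j + 1) - exp s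

/-- `⟨V_s H, H⟩`. -/
noncomputable def qV (S : Sys ι) (s : ℝ) (h : Ev ι) : ℝ := ∑ j, vj S s j * h j ^ 2

/-- `|∇H|²`. -/
noncomputable def gsq (u : Ev ι × Ev ι × Ev ι) : ℝ := ‖u.2.1‖ ^ 2 + ‖u.2.2‖ ^ 2

/-- The wall on the plane. -/
noncomputable def SS (F : ℝ → ℝ) (z : ℂ) : ℝ := F (‖z‖ ^ 2)

/-- Angular functions: `cos kθ` (`b = true`) and `sin kθ` (`b = false`). -/
noncomputable def trig (k : ℕ) (b : Bool) (z : ℂ) : ℝ :=
  if b then ((z / (‖z‖ : ℂ)) ^ k).re else ((z / (‖z‖ : ℂ)) ^ k).im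

/-- Largest treated angular number for the component `j`. -/
noncomputable def Kmax (S : Sys ι) (j : ι) : ℕ := if j = S.o then 1 else ⌊kmu (S.μ j)⌋₊

/-- All treated modes `(j,k,b)`. -/
noncomputable def modes (S : Sys ι) : Finset (ι × ℕ × Bool) :=
  (Finset.univ.biUnion fun j => (Finset.range (Kmax S j + 1)).biUnion fun k =>
    (Finset.univ : Finset Bool).image fun b => (j, k, b)).filter fun i => i.2.1 = 0 → i.2.2 = true

/-- The negative modes: all treated modes except the two translation modes. -/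
noncomputable def neg (S : Sys ι) : Finset (ι × ℕ × Bool) :=
  (modes S).filter fun i => ¬ (i.1 = S.o ∧ i.2.1 = 1)

/-- The test functionals `ℓ_i^ξ(U) = ∫ ω(|x-ξ|-ρ) trig_k(x-ξ) U_j(x) dx`. -/
noncomputable def ell (ρ : ℝ) (i : ι × ℕ × Bool) (ξ : ℂ) (U : Fld ι) : ℝ :=
  ∫ x : ℂ, om (‖x - ξ‖ - ρ) * trig i.2.1 i.2.2 (x - ξ) * (U x).1 i.1

/-- basis vector of `Ev ι`. -/
noncomputable def bv (j : ι) : Ev ι := EuclideanSpace.single j (1 : ℝ)

/-- coefficient space of the negative modes. -/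
abbrev Cc (S : Sys ι) := {i // i ∈ neg S} → ℝ

/-- The negative-mode function with coefficients `c`, centred at `ξ`. -/
noncomputable def Cf (S : Sys ι) (χ : {i // i ∈ neg S} → ℂ → ℝ) (c : Cc S) (ξ : ℂ) :
    ℂ → Ev ι :=
  fun x => ∑ i : {i // i ∈ neg S}, (c i * χ i (x - ξ)) • bv i.1.1

end Pool.MP_ad5d82_an.Wl
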