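/-
MP_ad5d82_an, part A4 (helper24): spectrum of `K diag(K⁻¹ 1)` for a finite type Cartan matrix.
Definitions only.
-/
import Mathlib

set_option autoImplicit false

namespace Pool.MP_ad5d82_an.Eig

open Matrix

variable {ι : Type} [Fintype ι] [DecidableEq ι]

/-- Cartan matrix of finite type (as in the frozen statement). -/
structure IsFT (K : Matrix ι ι ℤ) : Prop where
  diag : ∀ a, K a a = 2
  off : ∀ a b, a ≠ b → K a b ≤ 0
  pd : ∃ d : ι → ℝ, (∀ a, 0 < d a) ∧ (Matrix.of fun a b => d a * (K a b : ℝ)).PosDef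

/-- indecomposable: no proper nonempty set of indices is closed. -/
def Irred (K : Matrix ι ι ℤ) : Prop :=
  ∀ s : Set ι, s.Nonempty → s ≠ Set.univ → ∃ a ∈ s, ∃ b, b ∉ s ∧ K a b ≠ 0

/-- Pairing with the `j`-th simple coroot, `x = ∑ xᵢ αᵢ ↦ ∑ xᵢ Kᵢⱼ`. -/
noncomputable def pj (K : Matrix ι ι ℤ) (j : ι) : (ι → ℝ) →ₗ[ℝ] ℝ :=
  ∑ i, (K i j : ℝ) • LinearMap.proj i

/-- The simple reflection `x ↦ x - pj x • αⱼ`. -/
noncomputable def sr (K : Matrix ι ι ℤ) (j : ι) : (ι → ℝ) →ₗ[ℝ] (ι → ℝ) :=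
  LinearMap.id - (pj K j).smulRight (Pi.single j 1)

/-- Products of simple reflections. -/
noncomputable def act (K : Matrix ι ι ℤ) : List ι → ((ι → ℝ) →ₗ[ℝ] (ι → ℝ))
  | [] => LinearMap.id
  | j :: L => (sr K j) ∘ₗ (act K L)

/-- Roots: images of simple roots. -/
def IsRoot (K : Matrix ι ι ℤ) (v : ι → ℝ) : Prop :=
  ∃ (L : List ι) (a : ι), v = act K L (Pi.single a 1)

/-- The invariant form `∑ xᵢ Kᵢⱼ yⱼ / dⱼ`. -/
noncomputable def form (K : Matrix ι ι ℤ) (d : ι → ℝ) (x y : ι → ℝ) : ℝ :=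
  ∑ i, ∑ j, x i * (K i j : ℝ) * (d j)⁻¹ * y j

/-- Dominant vectors. -/
def Dom (K : Matrix ι ι ℤ) (x : ι → ℝ) : Prop := ∀ j, 0 ≤ pj K j x

end Pool.MP_ad5d82_an.Eig
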