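/-
MP_ad5d82_an (helper24): the energy space (fields = value and gradient). Definitions only.
-/
import Pool.Agent.Lib.MP_ad5d82_an.h24.BDefs

set_option autoImplicit false

namespace Pool.MP_ad5d82_an.Wl

open Real Set MeasureTheory Filter Topology
open scoped ContDiff

variable {ι : Type} [Fintype ι] [DecidableEq ι]

/-- fixed weight `(1+|z|²)^{-2}`. -/
noncomputable def wt (z : ℂ) : ℝ := ((1 + ‖z‖ ^ 2) ^ 2)⁻¹

/-- pointwise energy. -/
noncomputable def nsq (z : ℂ) (u : Ev ι × Ev ι × Ev ι) : ℝ := wt z * ‖u.1‖ ^ 2 + gsq u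

/-- test functions. -/
def IsTest (H : ℂ → Ev ι) : Prop := ContDiff ℝ ∞ H ∧ HasCompactSupport H

/-- scalar test functions. -/
def IsTestR (f : ℂ → ℝ) : Prop := ContDiff ℝ ∞ f ∧ HasCompactSupport f

/-- The energy space: closure of the test functions. -/
def IsSob (U : Fld ι) : Prop :=
  AEStronglyMeasurable U volume ∧ ∃ φ : ℕ → ℂ → Ev ι, (∀ n, IsTest (φ n)) ∧
    Tendsto (fun n => ∫⁻ z, ENNReal.ofReal (nsq z (U z - jet (φ n) z))) atTop (𝓝 0)

/-- total energy. -/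
noncomputable def En (U : Fld ι) : ℝ := ∫ z, nsq z (U z)

/-- multiplication of a field by a scalar function (product rule). -/
noncomputable def mulF (η : ℂ → ℝ) (U : Fld ι) : Fld ι := fun z =>
  (η z • (U z).1, η z • (U z).2.1 + fderiv ℝ η z 1 • (U z).1,
    η z • (U z).2.2 + fderiv ℝ η z Complex.I • (U z).1)

/-- pairing of fields. -/
noncomputable def pair (Z U : Fld ι) (z : ℂ) : ℝ :=
  ∑ j, ((Z z).1 j * (U z).1 j + (Z z).2.1 j * (U z).2.1 j + (Z z).2.2 j * (U z).2.2 j)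

/-- dual fields: those with finite dual energy. -/
def IsDual (Z : Fld ι) : Prop :=
  AEStronglyMeasurable Z volume ∧
    Integrable (fun z => (wt z)⁻¹ * ‖(Z z).1‖ ^ 2 + (‖(Z z).2.1‖ ^ 2 + ‖(Z z).2.2‖ ^ 2)) volume

/-- Laplacian. -/
noncomputable def lapC (f : ℂ → ℝ) (z : ℂ) : ℝ :=
  fderiv ℝ (fun w => fderiv ℝ f w 1) z 1 + fderiv ℝ (fun w => fderiv ℝ f w Complex.I) z Complex.I

end Pool.MP_ad5d82_an.Wl
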