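/-
MP_ad5d82_an (helper24): the nonlinearity in eigen-coordinates. Definitions only.
-/
import Pool.Agent.Lib.MP_ad5d82_an.h24.HDefs

set_option autoImplicit false

namespace Pool.MP_ad5d82_an.Wl

open Real Set MeasureTheory Filter Topology
open scoped ContDiff

variable {ι : Type} [Fintype ι] [DecidableEq ι]

/-- The `a`-th component of the vector with eigen-coordinates `h`. -/
noncomputable def lin (S : Sys ι) (a : ι) (h : Ev ι) : ℝ := ∑ j, S.T a j * h j

/-- `a(h) = ⟨A(e^h-1), e^h-1⟩`. -/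
noncomputable def aa (S : Sys ι) (h : Ev ι) : ℝ :=
  ∑ j, (S.μ j : ℝ) * (∑ a, S.m a * S.T a j * (exp (lin S a h) - 1)) ^ 2

/-- `b(h) = ⟨1, e^h - 1 - h⟩`. -/
noncomputable def bb (S : Sys ι) (h : Ev ι) : ℝ :=
  ∑ a, S.m a * (exp (lin S a h) - 1 - lin S a h)

/-- `𝒲(s,h) = W(s1+h) - W(s1) - ⟨∇W(s1),h⟩ = ½e^{2s}(a+2b) - e^s b`. -/
noncomputable def WW (S : Sys ι) (s : ℝ) (h : Ev ι) : ℝ :=
  1 / 2 * exp (2 * s) * (aa S h + 2 * bb S h) - exp s * bb S h

/-- cubic remainder. -/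
noncomputable def RR (S : Sys ι) (s : ℝ) (h : Ev ι) : ℝ := WW S s h - 1 / 2 * qV S s h

/-- scalar truncation: `t` for `|t| ≤ τ`, `0` for `|t| ≥ 2τ`. -/
noncomputable def ch (τ t : ℝ) : ℝ := t * Real.smoothTransition (2 - (t / τ) ^ 2)

/-- vector truncation. -/
noncomputable def trc (τ : ℝ) (h : Ev ι) : Ev ι := WithLp.toLp 2 fun j => ch τ (h j)

/-- truncated remainder. -/
noncomputable def RT (S : Sys ι) (τ s : ℝ) (h : Ev ι) : ℝ := RR S s (trc τ h)

/-- sum of the negative parts of the components. -/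
noncomputable def ngs (S : Sys ι) (h : Ev ι) : ℝ := ∑ a, S.m a * max (-(lin S a h)) 0

/-- the vector `1 = √c e_o`. -/
noncomputable def one (S : Sys ι) : Ev ι := Real.sqrt (∑ a, S.m a) • bv S.o

/-- cut-off logarithm: `log t` for `0<t≤1/2`, `0` for `t ≥ 1`. -/
noncomputable def lg (t : ℝ) : ℝ := Real.log t * Real.smoothTransition (2 - 2 * t)

/-- smooth part: `lg t - log t`. -/
noncomputable def lg1 (t : ℝ) : ℝ := Real.log t * (Real.smoothTransition (2 - 2 * t) - 1)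

/-- `γ = -Δ lg(|z|²)` off the origin. -/
noncomputable def gam (z : ℂ) : ℝ := -lapC (fun w => lg1 (‖w‖ ^ 2)) z

end Pool.MP_ad5d82_an.Wl
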