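/-
MP_ad5d82_an (helper24): configuration, functional, min-max. Definitions only.
-/
import Pool.Agent.Lib.MP_ad5d82_an.h24.FDefs
import Pool.Agent.Lib.MP_ad5d82_an.h24.B.BN

set_option autoImplicit false

namespace Pool.MP_ad5d82_an.Wl

open Real Set MeasureTheory Filter Topology
open scoped ContDiff

variable {ι : Type} [Fintype ι] [DecidableEq ι]

/-- Fixed data: spectral data, vortices (at least one), constants of the negative family. -/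
structure Base (ι : Type) [Fintype ι] [DecidableEq ι] where
  S : Sys ι
  nv : ℕ
  hnv : 0 < nv
  p : Fin nv → ℂ
  cp : Fin nv → ι
  c₀ : ℝ
  hc₀ : 0 < c₀
  C₀ : ℝ
  hC₀ : 1 ≤ C₀

/-- Configuration: thresholds `δ`, radius `R₀`, range `Ξ` of the centre, the wall, the negative family. -/
structure Cfg (B : Base ι) (δ R₀ Ξ : ℝ) where
  ρ : ℝ
  ε : ℝ
  F : ℝ → ℝ
  wall : Wall ρ ε F
  χ : {i // i ∈ neg B.S} → ℂ → ℝ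
  fam : NegFam B.S B.c₀ B.C₀ ρ F χ

variable {B : Base ι} {δ R₀ Ξ : ℝ}

/-- singular part `v₀`. -/
noncomputable def v0 (B : Base ι) (x : ℂ) : Ev ι :=
  WithLp.toLp 2 fun j => ∑ n, B.S.m (B.cp n) * B.S.T (B.cp n) j * lg (‖x - B.p n‖ ^ 2)

/-- `g₀` with `Δv₀ = 4πΣδ - g₀`. -/
noncomputable def g0 (B : Base ι) (x : ℂ) : Ev ι :=
  WithLp.toLp 2 fun j => ∑ n, B.S.m (B.cp n) * B.S.T (B.cp n) j * gam (x - B.p n)

/-- threshold. -/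
noncomputable def tau (δ ρ : ℝ) (x : ℂ) : ℝ :=
  if ‖x‖ < ρ / 2 then δ else (ρ ^ 6)⁻¹ * (1 + Real.posLog (‖x‖ / ρ))

/-- the potential density (true near the vortices, truncated outside `R₀`). -/
noncomputable def pot (B : Base ι) (δ R₀ ρ : ℝ) (x : ℂ) (s : ℝ) (g : Ev ι) : ℝ :=
  if ‖x‖ < R₀ then WW B.S s (v0 B x + g) else 1 / 2 * qV B.S s g + RT B.S (tau δ ρ x) s g

/-- the full unknown `G = U + C^ξ`. -/
noncomputable def GG (K : Cfg B δ R₀ Ξ) (U : Fld ι) (c : Cc B.S) (ξ : ℂ) : Fld ι :=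
  U + jet (Cf B.S K.χ c ξ)

/-- bilinear form of `gP`. -/
noncomputable def gPb (S : Sys ι) (u w : Ev ι × Ev ι × Ev ι) : ℝ :=
  ∑ j, (S.μ j : ℝ)⁻¹ * (u.2.1 j * w.2.1 j + u.2.2 j * w.2.2 j)

/-- `⟨P g, h⟩`. -/
noncomputable def pP (S : Sys ι) (g h : Ev ι) : ℝ := ∑ j, (S.μ j : ℝ)⁻¹ * (g j * h j)

/-- functional without penalty. -/
noncomputable def PhiJ (K : Cfg B δ R₀ Ξ) (U : Fld ι) (c : Cc B.S) (ξ : ℂ) : ℝ :=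
  (∫ x, 1 / 2 * gP B.S (GG K U c ξ x))
    + (∫ x, pot B δ R₀ K.ρ x (SS K.F (x - ξ)) (GG K U c ξ x).1)
    + (∫ x, pP B.S (g0 B x) (GG K U c ξ x).1)
    + 4 * π * ∑ n, B.S.m (B.cp n) * SS K.F (B.p n - ξ)

/-- the functional. -/
noncomputable def Phi (K : Cfg B δ R₀ Ξ) (U : Fld ι) (c : Cc B.S) (ξ : ℂ) : ℝ :=
  PhiJ K U c ξ + K.ρ ^ 2 * ∑ i ∈ modes B.S, ell K.ρ i ξ U ^ 2

/-- derivative of `PhiJ` in the direction of the field `φ`. -/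
noncomputable def DPhiJ (K : Cfg B δ R₀ Ξ) (U : Fld ι) (c : Cc B.S) (ξ : ℂ) (φ : Fld ι) : ℝ :=
  (∫ x, gPb B.S (GG K U c ξ x) (φ x))
    + (∫ x, fderiv ℝ (pot B δ R₀ K.ρ x (SS K.F (x - ξ))) (GG K U c ξ x).1 (φ x).1)
    + (∫ x, pP B.S (g0 B x) (φ x).1)

/-- derivative of `Phi`. -/
noncomputable def DPhi (K : Cfg B δ R₀ Ξ) (U : Fld ι) (c : Cc B.S) (ξ : ℂ) (φ : Fld ι) : ℝ :=
  DPhiJ K U c ξ φ + 2 * K.ρ ^ 2 * ∑ i ∈ modes B.S, ell K.ρ i ξ U * ell K.ρ i ξ φ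

/-- `(c,ξ)` maximises `Phi K U` over all `c` and `‖ξ‖ ≤ Ξ`. -/
def IsMaxPt (K : Cfg B δ R₀ Ξ) (U : Fld ι) (c : Cc B.S) (ξ : ℂ) : Prop :=
  ‖ξ‖ ≤ Ξ ∧ ∀ (c' : Cc B.S) (ξ' : ℂ), ‖ξ'‖ ≤ Ξ → Phi K U c' ξ' ≤ Phi K U c ξ

/-- `U` minimises the maximum. -/
def IsMinz (K : Cfg B δ R₀ Ξ) (U : Fld ι) : Prop :=
  IsSob U ∧ ∀ V : Fld ι, IsSob V → ∀ (c : Cc B.S) (ξ : ℂ), IsMaxPt K U c ξ →
    ∀ (c' : Cc B.S) (ξ' : ℂ), IsMaxPt K V c' ξ' → Phi K U c ξ ≤ Phi K V c' ξ'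

/-- outer coercive quantity. -/
noncomputable def NII (ρ a : ℝ) (U : Fld ι) : ℝ :=
  ∫ x in {x : ℂ | a ≤ ‖x‖}, (gsq (U x) + wgt ρ ‖x‖ * ‖(U x).1‖ ^ 2)

/-- inner coercive quantity. -/
noncomputable def NI (a b : ℝ) (U : Fld ι) : ℝ :=
  ∫ x in {x : ℂ | a < ‖x‖ ∧ ‖x‖ < b}, (gsq (U x) + ‖(U x).1‖ ^ 2)

/-- core energy. -/
noncomputable def NC (B : Base ι) (R : ℝ) (U : Fld ι) : ℝ :=
  ∫ x in {x : ℂ | ‖x‖ < R}, (gsq (U x) + aa B.S (v0 B x + (U x).1))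

end Pool.MP_ad5d82_an.Wl
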